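import Pool.Agent.WR4.Stmts

/-!
WR4, row TMU: multiplicity of the typical integers in an orbit.
-/

set_option autoImplicit false

namespace Pool.Agent.WR4.H21

open Pool.Agent.WIR Pool.Agent.WR2 Pool.Agent.WR3 Pool.Agent.WR4
open scoped BigOperators

theorem T_pos (n : ℕ) (h : 0 < n) : 0 < T n := by
  unfold T
  split_ifs with h1 <;> omega

theorem iter_pos (n k : ℕ) (h : 0 < n) : 0 < T^[k] n := by
  induction k with
  | zero => exact h
  | succ k ih =>
    rw [Function.iterate_succ_apply']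
    exact T_pos _ ih

theorem mem_TF {X a : ℕ} (h : a ∈ TF X) : 0 < a ∧ a ∈ TX X := by
  classical
  unfold TF at h
  rw [Finset.mem_filter, Finset.mem_Icc] at h
  exact ⟨by omega, h.2⟩

theorem sub_Ico (X c τ0 : ℕ) (h0 : T^[τ0] c ∈ TF X) (τ : ℕ) (h : T^[τ] c ∈ TF X) :
    τ < τ0 + Nat.log 2 X := by
  by_contra hlt
  push Not at hlt
  obtain ⟨p0, t0⟩ := mem_TF h0
  obtain ⟨_, t1⟩ := mem_TF h
  obtain ⟨d, rfl⟩ := Nat.exists_eq_add_of_le hlt
  apply t1.2 (T^[Nat.log 2 X] (T^[τ0] c)) d (iter_pos _ _ p0) t0.1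
  rw [← Function.iterate_add_apply, ← Function.iterate_add_apply]
  congr 1
  ring_nf

theorem tmu : TmuStmt := by
  classical
  intro X c
  have hmain : ∃ F : Finset ℕ, F.card ≤ Nat.log 2 X ∧ ∀ τ, T^[τ] c ∈ TF X → τ ∈ F := by
    by_cases hne : ∃ τ, T^[τ] c ∈ TF X
    · refine ⟨Finset.Ico (Nat.find hne) (Nat.find hne + Nat.log 2 X), ?_, ?_⟩
      · rw [Nat.card_Ico, Nat.add_sub_cancel_left]
      · intro τ hτ
        rw [Finset.mem_Ico]
        exact ⟨Nat.find_min' hne hτ, sub_Ico X c _ (Nat.find_spec hne) τ hτ⟩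
    · push Not at hne
      exact ⟨∅, by simp, fun τ hτ => absurd hτ (hne τ)⟩
  obtain ⟨F, hF, hmem⟩ := hmain
  have hsub : {τ : ℕ | T^[τ] c ∈ TF X} ⊆ (F : Set ℕ) := fun τ hτ => hmem τ hτ
  refine ⟨F.finite_toSet.subset hsub, ?_, ?_⟩
  · refine (Set.ncard_le_ncard hsub F.finite_toSet).trans ?_
    rw [Set.ncard_coe_finset]
    exact hF
  · intro y
    have h1 : ∀ a ∈ TF X, mu a y c ≤ ((F.filter (fun τ => T^[τ] c = a)).card : ℝ) := by
      intro a ha
      unfold mu
      have h2 : {τ : ℕ | T^[τ] c = a ∧ (2 : ℝ) ^ τ ≤ y * 3 ^ od τ c} ⊆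
          ((F.filter (fun τ => T^[τ] c = a) : Finset ℕ) : Set ℕ) := by
        rintro τ ⟨hτ, -⟩
        rw [Finset.mem_coe, Finset.mem_filter]
        exact ⟨hmem τ (hτ ▸ ha), hτ⟩
      have h3 := Set.ncard_le_ncard h2 (Finset.finite_toSet _)
      rw [Set.ncard_coe_finset] at h3
      exact_mod_cast h3
    refine (Finset.sum_le_sum h1).trans ?_
    rw [← Nat.cast_sum]
    have h4 : ∑ a ∈ TF X, (F.filter (fun τ => T^[τ] c = a)).card ≤ F.card := by
      have h5 : ∑ a ∈ TF X, (F.filter (fun τ => T^[τ] c = a)).card =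
          (F.filter (fun τ => T^[τ] c ∈ TF X)).card := by
        rw [Finset.card_eq_sum_card_fiberwise (f := fun τ => T^[τ] c) (t := TF X)
          (s := F.filter (fun τ => T^[τ] c ∈ TF X))]
        · refine Finset.sum_congr rfl fun a ha => ?_
          congr 1
          ext τ
          simp only [Finset.mem_filter]
          constructor
          · rintro ⟨h6, rfl⟩
            exact ⟨⟨h6, ha⟩, rfl⟩
          · rintro ⟨⟨h6, -⟩, h7⟩
            exact ⟨h6, h7⟩
        · intro τ hτ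
          exact (Finset.mem_filter.1 (Finset.mem_coe.1 hτ)).2
      rw [h5]
      exact Finset.card_filter_le _ _
    exact_mod_cast h4.trans hF

end Pool.Agent.WR4.H21
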